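import Pool.Agent.NDR.StmtsC
import Pool.Agent.Helper96_ABCT.Farkas

/-!
# Squad NDR, row CDL
-/

set_option autoImplicit false

namespace Pool.Agent.NDR.H65

open Finset Pool.Agent.Helper30_Simp

theorem inC_iff65 {σ : Type} [Fintype σ] (A : Finset (σ →₀ ℕ)) (I : Finset σ) (q : σ → ℝ) :
    InC I (toZ A) q ↔ ∃ c : (σ →₀ ℕ) → ℝ, (∀ α, 0 ≤ c α) ∧
      ∀ i ∈ I, q i = ∑ α ∈ A, c α * ((α i : ℕ) : ℝ) := by
  classical
  have hinj : Function.Injective (fun (α : σ →₀ ℕ) (i : σ) => ((α i : ℕ) : ℤ)) := by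
    intro α β h
    ext i
    have := congrFun h i
    simpa using this
  have hsum : ∀ (l : (σ → ℤ) → ℝ) (i : σ), ∑ a ∈ toZ A, l a * ((a i : ℤ) : ℝ) =
      ∑ α ∈ A, l (fun i => ((α i : ℕ) : ℤ)) * ((α i : ℕ) : ℝ) := by
    intro l i
    unfold toZ
    rw [Finset.sum_image fun a _ b _ h => hinj h]
    refine Finset.sum_congr rfl fun α _ => ?_
    simp
  constructor
  · rintro ⟨l, hl, h⟩
    refine ⟨fun α => l (fun i => ((α i : ℕ) : ℤ)), fun α => hl _, fun i hi => ?_⟩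
    rw [h i hi, hsum]
  · rintro ⟨c, hc, h⟩
    refine ⟨Function.extend (fun (α : σ →₀ ℕ) (i : σ) => ((α i : ℕ) : ℤ)) c 0, ?_, ?_⟩
    · intro a
      by_cases ha : ∃ α : σ →₀ ℕ, (fun (i : σ) => ((α i : ℕ) : ℤ)) = a
      · obtain ⟨α, rfl⟩ := ha
        rw [hinj.extend_apply c 0 α]
        exact hc α
      · rw [Function.extend_apply' _ _ _ ha]
        exact le_refl _
    · intro i hi
      rw [h i hi, hsum]
      refine Finset.sum_congr rfl fun α _ => ?_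
      rw [hinj.extend_apply c 0 α]

theorem finmin65 {X : Type} (V : Finset X) (Q : X → ℝ → Prop)
    (h : ∀ v, ∃ d : ℝ, 0 < d ∧ ∀ d', 0 < d' → d' ≤ d → Q v d') :
    ∃ d : ℝ, 0 < d ∧ d ≤ 1 ∧ ∀ v ∈ V, ∀ d', 0 < d' → d' ≤ d → Q v d' := by
  classical
  induction V using Finset.induction_on with
  | empty => exact ⟨1, one_pos, le_refl _, fun v hv => absurd hv (Finset.notMem_empty v)⟩
  | insert a V ha ih =>
    obtain ⟨d, hd, hd1, hV⟩ := ih
    obtain ⟨b, hb, hQ⟩ := h a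
    refine ⟨min d b, lt_min hd hb, (min_le_left _ _).trans hd1, ?_⟩
    intro v hv d' hd' hle
    rcases Finset.mem_insert.mp hv with rfl | hv
    · exact hQ d' hd' (hle.trans (min_le_right _ _))
    · exact hV v hv d' hd' (hle.trans (min_le_left _ _))

theorem farkas_step65 {σ : Type} [Fintype σ] (A : Finset (σ →₀ ℕ)) (I : Finset σ) (x : σ → ℝ)
    (W : ℝ) (hW : 0 ≤ W) :
    ∃ d : ℝ, 0 < d ∧ ∀ d', 0 < d' → d' ≤ d → ∀ (c : (σ →₀ ℕ) → ℝ) (e : σ → ℝ),
      (∀ α ∈ A, 0 ≤ c α) → (∀ i ∈ I, 0 ≤ e i ∧ e i ≤ d' * W) →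
      (∀ i ∈ I, x i = ∑ α ∈ A, c α * ((α i : ℕ) : ℝ) + e i) →
      ∃ c' : (σ →₀ ℕ) → ℝ, (∀ α, 0 ≤ c' α) ∧
        ∀ i ∈ I, x i = ∑ α ∈ A, c' α * ((α i : ℕ) : ℝ) := by
  classical
  let v : (σ →₀ ℕ) → (σ → ℝ) := fun α i => if i ∈ I then ((α i : ℕ) : ℝ) else 0
  let x' : σ → ℝ := fun i => if i ∈ I then x i else 0
  by_cases hx : x' ∈ ABCT.H96.cone v A
  · obtain ⟨c, hc, hxc⟩ := hx
    refine ⟨1, one_pos, fun d' _ _ _ _ _ _ _ => ?_⟩
    refine ⟨fun α => if α ∈ A then c α else 0, fun α => ?_, fun i hi => ?_⟩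
    · show 0 ≤ if α ∈ A then c α else 0
      split_ifs with h
      · exact hc α h
      · exact le_refl _
    · have h1 := congrFun hxc i
      rw [Finset.sum_apply] at h1
      have h2 : x' i = x i := if_pos hi
      rw [← h2, h1]
      refine Finset.sum_congr rfl fun α hα => ?_
      show c α * (if i ∈ I then ((α i : ℕ) : ℝ) else 0) = (if α ∈ A then c α else 0) * _
      rw [if_pos hi, if_pos hα]
  · obtain ⟨f, hf, hfx⟩ := ABCT.H96.farkas v A x' hx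
    have hK : 0 < ‖f‖ * W + 1 := by positivity
    refine ⟨(- f x') / (2 * (‖f‖ * W + 1)), div_pos (by linarith) (by positivity), ?_⟩
    intro d' hd' hle c e hc he hxe
    exfalso
    let e' : σ → ℝ := fun i => if i ∈ I then e i else 0
    have h1 : x' = ∑ α ∈ A, c α • v α + e' := by
      funext i
      rw [Pi.add_apply, Finset.sum_apply]
      show (if i ∈ I then x i else 0) = (∑ α ∈ A, c α * (if i ∈ I then ((α i : ℕ) : ℝ) else 0)) +
        (if i ∈ I then e i else 0)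
      by_cases hi : i ∈ I
      · simp only [if_pos hi]
        exact hxe i hi
      · simp [if_neg hi]
    have h2 : ‖e'‖ ≤ d' * W := by
      rw [pi_norm_le_iff_of_nonneg (by positivity)]
      intro i
      show ‖if i ∈ I then e i else 0‖ ≤ _
      by_cases hi : i ∈ I
      · rw [if_pos hi, Real.norm_eq_abs, abs_of_nonneg (he i hi).1]
        exact (he i hi).2
      · rw [if_neg hi, norm_zero]
        positivity
    have h3 : f x' = ∑ α ∈ A, c α * f (v α) + f e' := by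
      rw [h1, map_add, map_sum]
      simp
    have h4 : 0 ≤ ∑ α ∈ A, c α * f (v α) :=
      Finset.sum_nonneg fun α hα => mul_nonneg (hc α hα) (hf α hα)
    have h5 : |f e'| ≤ ‖f‖ * (d' * W) := by
      have := f.le_opNorm e'
      rw [Real.norm_eq_abs] at this
      exact this.trans (mul_le_mul_of_nonneg_left h2 (norm_nonneg _))
    have h6 : - (‖f‖ * (d' * W)) ≤ f e' := (abs_le.mp h5).1
    have h7 : ‖f‖ * (d' * W) ≤ d' * (‖f‖ * W + 1) := by nlinarith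
    have h8 : d' * (‖f‖ * W + 1) ≤ (- f x') / 2 := by
      have h9 := mul_le_mul_of_nonneg_right hle hK.le
      have h10 : (- f x') / (2 * (‖f‖ * W + 1)) * (‖f‖ * W + 1) = (- f x') / 2 := by
        field_simp
      linarith
    linarith

theorem cdl : CdlStmt := by
  classical
  intro σ _ M κ N p hN hM
  let I := sup κ
  let A := lev M κ N
  have hI : ∀ i, i ∈ sup κ ↔ κ i ≠ 0 := by
    intro i
    simp [sup]
  have hA : ∀ α, α ∈ lev M κ N ↔ α ∈ M ∧ dot κ α = N := by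
    intro α
    simp [lev]
  let D : ℕ := ∑ α ∈ M, ∑ i, α i
  have hD : ∀ α ∈ M, ∀ i, α i ≤ D := by
    intro α hα i
    have h1 : α i ≤ ∑ i, α i :=
      Finset.single_le_sum (f := fun i => α i) (fun _ _ => Nat.zero_le _) (Finset.mem_univ i)
    have h2 : ∑ i, α i ≤ ∑ α ∈ M, ∑ i, α i :=
      Finset.single_le_sum (f := fun α : σ →₀ ℕ => ∑ i, α i) (fun _ _ => Nat.zero_le _) hα
    exact h1.trans h2
  let W : ℝ := (N : ℝ) * ((D : ℝ) + 2)
  have hW : 0 ≤ W := by positivity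
  let B : ℝ := ((lev M κ N).card : ℝ) * (D : ℝ) + W
  let V : Finset (σ → ℤ) := Fintype.piFinset fun i =>
    if i ∈ sup κ then Finset.Icc ⌈- p i⌉ ⌊B - p i⌋ else {0}
  obtain ⟨d₀, hd₀, hd1, hV⟩ := finmin65 V
    (fun v d' => ∀ (c : (σ →₀ ℕ) → ℝ) (e : σ → ℝ),
      (∀ α ∈ lev M κ N, 0 ≤ c α) → (∀ i ∈ sup κ, 0 ≤ e i ∧ e i ≤ d' * W) →
      (∀ i ∈ sup κ, p i + ((v i : ℤ) : ℝ) = ∑ α ∈ lev M κ N, c α * ((α i : ℕ) : ℝ) + e i) →
      ∃ c' : (σ →₀ ℕ) → ℝ, (∀ α, 0 ≤ c' α) ∧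
        ∀ i ∈ sup κ, p i + ((v i : ℤ) : ℝ) = ∑ α ∈ lev M κ N, c' α * ((α i : ℕ) : ℝ))
    (fun v => farkas_step65 (lev M κ N) (sup κ) (fun i => p i + ((v i : ℤ) : ℝ)) W hW)
  refine ⟨d₀, hd₀, ?_⟩
  intro δ L hδ hδd hL u hCn
  obtain ⟨l, hl, hQ0, hs⟩ := hCn
  have hQ : ∀ i ∈ sup κ, p i + ((u i : ℤ) : ℝ) =
      ∑ α ∈ Mp M (sup κ) L, l α * ((α i : ℕ) : ℝ) := fun i hi => hQ0 i hi
  have hN' : (0 : ℝ) < (N : ℝ) := by exact_mod_cast hN
  -- the weighted sum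
  have hdot : ∀ α : σ →₀ ℕ, ((dot κ α : ℕ) : ℝ) = ∑ i ∈ sup κ, (κ i : ℝ) * ((α i : ℕ) : ℝ) := by
    intro α
    unfold dot
    push_cast
    symm
    refine Finset.sum_subset (Finset.subset_univ _) fun i _ hi => ?_
    have : κ i = 0 := by
      by_contra h
      exact hi ((hI i).mpr h)
    rw [this]
    simp
  have hk : ∑ i, (κ i : ℝ) * (p i + ((u i : ℤ) : ℝ)) =
      ∑ α ∈ Mp M (sup κ) L, l α * ((dot κ α : ℕ) : ℝ) := by
    have h1 : ∑ i, (κ i : ℝ) * (p i + ((u i : ℤ) : ℝ)) =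
        ∑ i ∈ sup κ, (κ i : ℝ) * (p i + ((u i : ℤ) : ℝ)) := by
      symm
      refine Finset.sum_subset (Finset.subset_univ _) fun i _ hi => ?_
      have : κ i = 0 := by
        by_contra h
        exact hi ((hI i).mpr h)
      rw [this]
      simp
    rw [h1]
    have h2 : ∑ i ∈ sup κ, (κ i : ℝ) * (p i + ((u i : ℤ) : ℝ)) =
        ∑ i ∈ sup κ, ∑ α ∈ Mp M (sup κ) L, l α * ((κ i : ℝ) * ((α i : ℕ) : ℝ)) := by
      refine Finset.sum_congr rfl fun i hi => ?_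
      rw [hQ i hi, Finset.mul_sum]
      refine Finset.sum_congr rfl fun α _ => ?_
      ring
    rw [h2, Finset.sum_comm]
    refine Finset.sum_congr rfl fun α _ => ?_
    rw [← Finset.mul_sum, hdot]
  have hdef : ∑ α ∈ Mp M (sup κ) L, l α * (((dot κ α : ℕ) : ℝ) - (N : ℝ)) = (N : ℝ) * δ := by
    have h1 : ∑ α ∈ Mp M (sup κ) L, l α * (((dot κ α : ℕ) : ℝ) - (N : ℝ)) =
        ∑ α ∈ Mp M (sup κ) L, l α * ((dot κ α : ℕ) : ℝ) -
          (N : ℝ) * ∑ α ∈ Mp M (sup κ) L, l α := by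
      rw [Finset.mul_sum, ← Finset.sum_sub_distrib]
      refine Finset.sum_congr rfl fun α _ => ?_
      ring
    rw [h1, ← hk, hs]
    field_simp
    ring
  have hsub : lev M κ N ⊆ Mp M (sup κ) L := by
    intro α hα
    unfold Mp
    exact Finset.mem_union_left _ ((hA α).mp hα).1
  have hmem : ∀ α ∈ Mp M (sup κ) L, α ∈ M ∨ ∃ j ∈ sup κ, Finsupp.single j L = α := by
    intro α hα
    unfold Mp at hα
    rcases Finset.mem_union.mp hα with h | h
    · exact Or.inl h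
    · obtain ⟨j, hj, hj'⟩ := Finset.mem_image.mp h
      exact Or.inr ⟨j, hj, hj'⟩
  have hdj : ∀ j, dot κ (Finsupp.single j L) = κ j * L := by
    intro j
    unfold dot
    rw [Finset.sum_eq_single j]
    · simp
    · intro b _ hb
      rw [Finsupp.single_eq_of_ne hb]
      simp
    · intro h
      exact absurd (Finset.mem_univ j) h
  have hge : ∀ α ∈ Mp M (sup κ) L, (0 : ℝ) ≤ ((dot κ α : ℕ) : ℝ) - (N : ℝ) := by
    intro α hα
    rcases hmem α hα with h | ⟨j, hj, rfl⟩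
    · have := hM α h
      have h' : (N : ℝ) ≤ ((dot κ α : ℕ) : ℝ) := by exact_mod_cast this
      linarith
    · rw [hdj]
      have h1 : 1 ≤ κ j := Nat.one_le_iff_ne_zero.mpr ((hI j).mp hj)
      have h2 : N ≤ κ j * L := by nlinarith
      have h' : (N : ℝ) ≤ ((κ j * L : ℕ) : ℝ) := by exact_mod_cast h2
      linarith
  have hbd : ∀ α ∈ Mp M (sup κ) L, α ∉ lev M κ N → ∀ i,
      ((α i : ℕ) : ℝ) ≤ (((dot κ α : ℕ) : ℝ) - (N : ℝ)) * ((D : ℝ) + 2) := by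
    intro α hα hn i
    have hD0 : (0 : ℝ) ≤ (D : ℝ) := Nat.cast_nonneg _
    rcases hmem α hα with h | ⟨j, hj, rfl⟩
    · have h1 := hM α h
      have h2 : dot κ α ≠ N := fun hh => hn ((hA α).mpr ⟨h, hh⟩)
      have h3 : N + 1 ≤ dot κ α := by omega
      have h4 : (N : ℝ) + 1 ≤ ((dot κ α : ℕ) : ℝ) := by exact_mod_cast h3
      have h5 : ((α i : ℕ) : ℝ) ≤ (D : ℝ) := by exact_mod_cast hD α h i
      nlinarith
    · rw [hdj]
      have h1 : 1 ≤ κ j := Nat.one_le_iff_ne_zero.mpr ((hI j).mp hj)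
      have h2 : L + 2 * N ≤ 2 * (κ j * L) := by nlinarith
      have h3 : (L : ℝ) + 2 * (N : ℝ) ≤ 2 * ((κ j * L : ℕ) : ℝ) := by exact_mod_cast h2
      have h4 : (((Finsupp.single j L : σ →₀ ℕ) i : ℕ) : ℝ) ≤ (L : ℝ) := by
        by_cases hij : i = j
        · subst hij
          rw [Finsupp.single_eq_same]
        · rw [Finsupp.single_eq_of_ne hij]
          simp
      have h5 : (0 : ℝ) ≤ (L : ℝ) := Nat.cast_nonneg _
      nlinarith
  -- the part off the face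
  let e : σ → ℝ := fun i => ∑ α ∈ Mp M (sup κ) L \ lev M κ N, l α * ((α i : ℕ) : ℝ)
  have he : ∀ i, 0 ≤ e i ∧ e i ≤ δ * W := by
    intro i
    refine ⟨Finset.sum_nonneg fun α _ => mul_nonneg (hl α) (Nat.cast_nonneg _), ?_⟩
    have h1 : e i ≤ ∑ α ∈ Mp M (sup κ) L \ lev M κ N,
        l α * (((dot κ α : ℕ) : ℝ) - (N : ℝ)) * ((D : ℝ) + 2) := by
      refine Finset.sum_le_sum fun α hα => ?_
      obtain ⟨ha, hb⟩ := Finset.mem_sdiff.mp hα
      rw [mul_assoc]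
      exact mul_le_mul_of_nonneg_left (hbd α ha hb i) (hl α)
    have h2 : ∑ α ∈ Mp M (sup κ) L \ lev M κ N, l α * (((dot κ α : ℕ) : ℝ) - (N : ℝ)) ≤
        (N : ℝ) * δ := by
      rw [← hdef]
      refine Finset.sum_le_sum_of_subset_of_nonneg Finset.sdiff_subset fun α hα _ => ?_
      exact mul_nonneg (hl α) (hge α hα)
    rw [← Finset.sum_mul] at h1
    have h3 : (0 : ℝ) ≤ (D : ℝ) + 2 := by positivity
    have h4 := mul_le_mul_of_nonneg_right h2 h3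
    show e i ≤ δ * ((N : ℝ) * ((D : ℝ) + 2))
    linarith
  have hsplit : ∀ i ∈ sup κ, p i + ((u i : ℤ) : ℝ) =
      ∑ α ∈ lev M κ N, l α * ((α i : ℕ) : ℝ) + e i := by
    intro i hi
    rw [hQ i hi, add_comm]
    exact (Finset.sum_sdiff hsub).symm
  -- the reduced point
  let v : σ → ℤ := fun i => if i ∈ sup κ then
    u i - ∑ α ∈ lev M κ N, ⌊l α⌋ * ((α i : ℕ) : ℤ) else 0
  have hv : ∀ i ∈ sup κ, p i + ((v i : ℤ) : ℝ) =
      ∑ α ∈ lev M κ N, Int.fract (l α) * ((α i : ℕ) : ℝ) + e i := by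
    intro i hi
    have h1 : v i = u i - ∑ α ∈ lev M κ N, ⌊l α⌋ * ((α i : ℕ) : ℤ) := if_pos hi
    have h2 := hsplit i hi
    have h3 : ∑ α ∈ lev M κ N, Int.fract (l α) * ((α i : ℕ) : ℝ) =
        ∑ α ∈ lev M κ N, l α * ((α i : ℕ) : ℝ) -
          ∑ α ∈ lev M κ N, ((⌊l α⌋ : ℤ) : ℝ) * ((α i : ℕ) : ℝ) := by
      rw [← Finset.sum_sub_distrib]
      refine Finset.sum_congr rfl fun α _ => ?_
      rw [← sub_mul]
      rfl
    rw [h1, h3]
    push_cast
    linarith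
  have hvV : v ∈ V := by
    rw [Fintype.mem_piFinset]
    intro i
    by_cases hi : i ∈ sup κ
    · rw [if_pos hi, Finset.mem_Icc, Int.ceil_le, Int.le_floor]
      have h1 := hv i hi
      have h2 : 0 ≤ ∑ α ∈ lev M κ N, Int.fract (l α) * ((α i : ℕ) : ℝ) :=
        Finset.sum_nonneg fun α _ => mul_nonneg (Int.fract_nonneg _) (Nat.cast_nonneg _)
      have h3 : ∑ α ∈ lev M κ N, Int.fract (l α) * ((α i : ℕ) : ℝ) ≤
          ((lev M κ N).card : ℝ) * (D : ℝ) := by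
        have h4 : ∑ α ∈ lev M κ N, Int.fract (l α) * ((α i : ℕ) : ℝ) ≤
            ∑ α ∈ lev M κ N, (D : ℝ) := by
          refine Finset.sum_le_sum fun α hα => ?_
          have h5 : ((α i : ℕ) : ℝ) ≤ (D : ℝ) := by
            exact_mod_cast hD α ((hA α).mp hα).1 i
          have h6 := (Int.fract_lt_one (l α)).le
          have h7 := Int.fract_nonneg (l α)
          have h8 : (0 : ℝ) ≤ ((α i : ℕ) : ℝ) := Nat.cast_nonneg _
          nlinarith
        rw [Finset.sum_const, nsmul_eq_mul] at h4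
        exact h4
      obtain ⟨h5, h6⟩ := he i
      have h7 : δ * W ≤ W := by
        have : δ ≤ 1 := hδd.trans hd1
        nlinarith
      constructor
      · linarith
      · show ((v i : ℤ) : ℝ) ≤ ((lev M κ N).card : ℝ) * (D : ℝ) + W - p i
        linarith
    · rw [if_neg hi, Finset.mem_singleton]
      exact if_neg hi
  obtain ⟨c', hc', h'⟩ := hV v hvV δ hδ hδd (fun α => Int.fract (l α)) e
    (fun α _ => Int.fract_nonneg _) (fun i _ => he i) hv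
  rw [inC_iff65]
  refine ⟨fun α => c' α + ((⌊l α⌋ : ℤ) : ℝ), fun α => ?_, fun i hi => ?_⟩
  · have h1 : (0 : ℤ) ≤ ⌊l α⌋ := Int.floor_nonneg.mpr (hl α)
    have h2 : (0 : ℝ) ≤ ((⌊l α⌋ : ℤ) : ℝ) := by exact_mod_cast h1
    exact add_nonneg (hc' α) h2
  · have h1 := h' i hi
    have h2 : v i = u i - ∑ α ∈ lev M κ N, ⌊l α⌋ * ((α i : ℕ) : ℤ) := if_pos hi
    rw [h2] at h1
    push_cast at h1
    show p i + ((u i : ℤ) : ℝ) = ∑ α ∈ lev M κ N, (c' α + ((⌊l α⌋ : ℤ) : ℝ)) * ((α i : ℕ) : ℝ)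
    simp only [add_mul, Finset.sum_add_distrib]
    linarith

end Pool.Agent.NDR.H65
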